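import Pool.Agent.Helper94.LG.Sheet
open MeasureTheory Metric Set Filter Topology
open scoped ENNReal NNReal

/-!
Row ADM of `Helper94/LG/Sheet.lean` (helper74): a minimal network is an admissible configuration.
-/

set_option autoImplicit false

namespace H11ST
namespace LG

theorem adm_esum_nonneg {d : ℕ} (p : Fin d → E d) (t : BT (Fin d) (E d)) :
    0 ≤ t.esum p dist := by
  induction t with
  | leaf i => exact le_refl _
  | node z l r hl hr =>
    unfold BT.esum
    have h1 : 0 ≤ dist z (l.pos p) := dist_nonneg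
    have h2 : 0 ≤ dist z (r.pos p) := dist_nonneg
    linarith

theorem adm_seg {d : ℕ} (a b : E d) : IsConnected (segment ℝ a b) :=
  ⟨⟨a, left_mem_segment ℝ a b⟩, (convex_segment a b).isPreconnected⟩

theorem adm_segc {d : ℕ} (a b : E d) : IsCompact (segment ℝ a b) := by
  rw [segment_eq_image_lineMap]
  exact isCompact_Icc.image AffineMap.lineMap_continuous

theorem adm_segm {d : ℕ} (a b : E d) : μH[1] (segment ℝ a b) = ENNReal.ofReal (dist a b) := by
  rw [hausdorffMeasure_segment, edist_dist]

structure AdmC {d : ℕ} (p : Fin d → E d) (t : BT (Fin d) (E d)) : Prop where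
  conn : IsConnected (carrier p t)
  cpt : IsCompact (carrier p t)
  pos : t.pos p ∈ carrier p t
  lv : ∀ i ∈ t.lv, p i ∈ carrier p t
  len : μH[1] (carrier p t) ≤ ENNReal.ofReal (t.esum p dist)

theorem adm_half {d : ℕ} {p : Fin d → E d} {t : BT (Fin d) (E d)} (h : AdmC p t) (z : E d) :
    IsConnected (segment ℝ z (t.pos p) ∪ carrier p t) ∧
    IsCompact (segment ℝ z (t.pos p) ∪ carrier p t) ∧
    μH[1] (segment ℝ z (t.pos p) ∪ carrier p t) ≤
      ENNReal.ofReal (dist z (t.pos p) + t.esum p dist) := by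
  refine ⟨IsConnected.union ⟨t.pos p, right_mem_segment ℝ z _, h.pos⟩ (adm_seg _ _) h.conn,
    (adm_segc _ _).union h.cpt, ?_⟩
  refine (measure_union_le _ _).trans ?_
  rw [ENNReal.ofReal_add dist_nonneg (adm_esum_nonneg p t), adm_segm]
  exact add_le_add le_rfl h.len

theorem adm_carrier {d : ℕ} (p : Fin d → E d) (t : BT (Fin d) (E d)) : AdmC p t := by
  induction t with
  | leaf i =>
    refine ⟨isConnected_singleton, isCompact_singleton, rfl, fun j hj => ?_, ?_⟩
    · have : j = i := Finset.mem_singleton.1 hj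
      rw [this]
      exact Set.mem_singleton _
    · have : NullSingletonClass (μH[1] : Measure (E d)) :=
        Measure.nullSingletonClass_hausdorff (E d) one_pos
      change μH[1] {p i} ≤ _
      rw [measure_singleton]
      exact bot_le
  | node z l r hl hr =>
    obtain ⟨l1, l2, l3⟩ := adm_half hl z
    obtain ⟨r1, r2, r3⟩ := adm_half hr z
    refine ⟨?_, ?_, ?_, ?_, ?_⟩
    · exact IsConnected.union ⟨z, Or.inl (left_mem_segment ℝ z _),
        Or.inl (left_mem_segment ℝ z _)⟩ l1 r1
    · exact l2.union r2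
    · exact Or.inl (Or.inl (left_mem_segment ℝ z _))
    · intro j hj
      rcases Finset.mem_union.1 hj with h | h
      · exact Or.inl (Or.inr (hl.lv j h))
      · exact Or.inr (Or.inr (hr.lv j h))
    · have h1 : (BT.node z l r).esum p dist = (dist z (l.pos p) + l.esum p dist) +
          (dist z (r.pos p) + r.esum p dist) := rfl
      rw [h1, ENNReal.ofReal_add (add_nonneg dist_nonneg (adm_esum_nonneg p l))
        (add_nonneg dist_nonneg (adm_esum_nonneg p r))]
      exact (measure_union_le _ _).trans (add_le_add l3 r3)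

/-- Row ADM. -/
theorem adm : LG_ADM := by
  intro hlow d i0 hd t ht
  have hC := adm_carrier (tm d) t
  obtain ⟨h1, h2, h3⟩ := adm_half hC (tm d i0)
  have hsub : range (tm d) ⊆ tset i0 t := by
    rintro _ ⟨i, rfl⟩
    by_cases hi : i = i0
    · rw [hi]
      exact Or.inl (left_mem_segment ℝ _ _)
    · refine Or.inr (hC.lv i ?_)
      rw [ht.val.2]
      exact Finset.mem_erase.2 ⟨hi, Finset.mem_univ i⟩
  have hcon : IsConnected (tset i0 t ∪ range (tm d)) := by
    rw [Set.union_eq_left.2 hsub]
    exact h1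
  have hcl : IsClosed (tset i0 t) := h2.isClosed
  have hle : μH[1] (tset i0 t) ≤ ENNReal.ofReal (tot i0 dist t) := h3
  refine ⟨⟨(Set.finite_range _).isCompact, ⟨hcl, hcon, fun S hS hSc => ?_⟩, h1, one_pos, ?_,
    lt_of_le_of_lt hle ENNReal.ofReal_lt_top⟩, le_antisymm hle ?_⟩
  · exact hle.trans (hlow d i0 hd S hS hSc _ ht.le)
  · rw [Set.eq_empty_iff_forall_notMem]
    rintro _ ⟨⟨i, rfl⟩, hb⟩
    rw [mem_ball, dist_zero_right] at hb
    unfold tm at hb
    simp at hb
  · exact hlow d i0 hd _ hcl hcon _ ht.le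

end LG
end H11ST
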